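import Pool.Agent.ANR.Stmts2

/-! Tank ANR, row FLR (helper81): the flux to a set after a change of the Green function. -/

set_option autoImplicit false

open scoped BigOperators ComplexConjugate

noncomputable section

namespace Pool.Agent.ANR.H81

open Pool.Agent.ANR

/-- Minkowski with weights -/
theorem wmink {ι : Type} (P : Finset ι) (κ a b c : ι → ℝ) (hκ : ∀ y ∈ P, 0 ≤ κ y)
    (ha : ∀ y ∈ P, 0 ≤ a y) (h : ∀ y ∈ P, a y ≤ b y + c y) :
    Real.sqrt (∑ y ∈ P, κ y * a y ^ 2) ≤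
      Real.sqrt (∑ y ∈ P, κ y * b y ^ 2) + Real.sqrt (∑ y ∈ P, κ y * c y ^ 2) := by
  have hB : 0 ≤ ∑ y ∈ P, κ y * b y ^ 2 :=
    Finset.sum_nonneg fun y hy => mul_nonneg (hκ y hy) (sq_nonneg _)
  have hC : 0 ≤ ∑ y ∈ P, κ y * c y ^ 2 :=
    Finset.sum_nonneg fun y hy => mul_nonneg (hκ y hy) (sq_nonneg _)
  rw [Real.sqrt_le_iff]
  refine ⟨add_nonneg (Real.sqrt_nonneg _) (Real.sqrt_nonneg _), ?_⟩
  have h1 : ∑ y ∈ P, κ y * a y ^ 2 ≤ ∑ y ∈ P, κ y * (b y + c y) ^ 2 := by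
    refine Finset.sum_le_sum fun y hy => mul_le_mul_of_nonneg_left ?_ (hκ y hy)
    exact pow_le_pow_left₀ (ha y hy) (h y hy) 2
  have h2 : ∑ y ∈ P, κ y * (b y + c y) ^ 2 = ∑ y ∈ P, κ y * b y ^ 2 +
      2 * ∑ y ∈ P, (Real.sqrt (κ y) * b y) * (Real.sqrt (κ y) * c y) + ∑ y ∈ P, κ y * c y ^ 2 := by
    rw [Finset.mul_sum, ← Finset.sum_add_distrib, ← Finset.sum_add_distrib]
    refine Finset.sum_congr rfl fun y hy => ?_
    have h3 := Real.mul_self_sqrt (hκ y hy)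
    linear_combination (-2 * b y * c y) * h3
  have h4 : ∑ y ∈ P, (Real.sqrt (κ y) * b y) * (Real.sqrt (κ y) * c y) ≤
      Real.sqrt (∑ y ∈ P, κ y * b y ^ 2) * Real.sqrt (∑ y ∈ P, κ y * c y ^ 2) := by
    have h5 := Real.sum_mul_le_sqrt_mul_sqrt P (fun y => Real.sqrt (κ y) * b y)
      (fun y => Real.sqrt (κ y) * c y)
    have h6 : ∀ f : ι → ℝ, ∑ y ∈ P, (Real.sqrt (κ y) * f y) ^ 2 = ∑ y ∈ P, κ y * f y ^ 2 := fun f =>
      Finset.sum_congr rfl fun y hy => by rw [mul_pow, Real.sq_sqrt (hκ y hy)]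
    rwa [h6, h6] at h5
  rw [h2] at h1
  have h7 := Real.sq_sqrt hB
  have h8 := Real.sq_sqrt hC
  nlinarith [h1, h4, h7, h8]

/-- row FLR -/
theorem flr : FlrStmt := by
  intro X _ _ G G' κ P x m hκ hm
  have h := wmink P κ (fun y => ‖G' x y‖) (fun y => ‖G x y‖) (fun y => ‖G x y - G' x y‖) hκ
    (fun y _ => norm_nonneg _) (fun y _ => by
      show ‖G' x y‖ ≤ ‖G x y‖ + ‖G x y - G' x y‖
      have h1 : G' x y = G x y - (G x y - G' x y) := by ring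
      calc ‖G' x y‖ = ‖G x y - (G x y - G' x y)‖ := congrArg _ h1
        _ ≤ _ := norm_sub_le _ _)
  refine h.trans ?_
  exact add_le_add le_rfl (Real.sqrt_le_sqrt hm)

end Pool.Agent.ANR.H81
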